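import Pool.Agent.Y152.RP.Stm

/-!
# The degree of a radical number over the field of its power
-/

set_option autoImplicit false

namespace Pool.Agent.Y907.RP

open Polynomial Pool.Agent.Y152.RP

theorem strB : StrAStm → StructStm := by
  classical
  intro hA t ht0 ⟨N₀, hN₀, q₀, hq₀⟩
  have hq00 : q₀ ≠ 0 := by
    rintro rfl
    rw [Rat.cast_zero] at hq₀
    exact ht0 ((pow_eq_zero_iff (by omega)).1 hq₀)
  have hex : ∃ f : ℕ, 0 < f ∧ ∃ n : ℕ, 0 < n ∧ ∃ ω : ℂ, IsPrimitiveRoot ω n ∧ ∃ q : ℚ, 0 < q ∧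
      (t ^ f) ^ 2 = ω * (q : ℂ) :=
    ⟨N₀, hN₀, 1, one_pos, 1, IsPrimitiveRoot.one, q₀ ^ 2, by positivity, by
      rw [hq₀]; push_cast; ring⟩
  have hspec := Nat.find_spec hex
  have hmin : ∀ g : ℕ, 0 < g → (∃ n : ℕ, 0 < n ∧ ∃ ω : ℂ, IsPrimitiveRoot ω n ∧ ∃ q : ℚ, 0 < q ∧
      (t ^ g) ^ 2 = ω * (q : ℂ)) → Nat.find hex ≤ g := fun g hg h => Nat.find_min' hex ⟨hg, h⟩
  generalize Nat.find hex = f at hspec hmin
  refine ⟨f, hspec.1, hspec.2, ?_⟩
  obtain ⟨hf0, n, hn, ω, hω, q, hq, hτ⟩ := hspec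
  set τ := t ^ f with hτdef
  -- the cyclotomic field with a square root
  obtain ⟨r, hr⟩ : ∃ r : ℂ, r ^ 2 = (q : ℂ) := by
    obtain ⟨r, hr⟩ := IsSquare.exists_sq (q : ℂ) (IsAlgClosed.exists_eq_mul_self (q : ℂ))
    exact ⟨r, hr.symm⟩
  have hr0 : r ≠ 0 := by
    rintro rfl
    rw [zero_pow two_ne_zero] at hr
    exact hq.ne' (by exact_mod_cast hr.symm)
  set N := 2 * n * f with hN
  have hN0 : N ≠ 0 := by positivity
  have : NeZero N := ⟨hN0⟩
  obtain ⟨ζ, hζ⟩ : ∃ ζ : ℂ, IsPrimitiveRoot ζ N := ⟨_, Complex.isPrimitiveRoot_exp N hN0⟩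
  set K := IntermediateField.adjoin ℚ ({ζ, r} : Set ℂ) with hK
  have hζK : ζ ∈ K := IntermediateField.subset_adjoin _ _ (by simp)
  have hrK : r ∈ K := IntermediateField.subset_adjoin _ _ (by simp)
  have hroot : ∀ η : ℂ, η ^ N = 1 → η ∈ K := by
    intro η hη
    obtain ⟨i, -, hi⟩ := hζ.eq_pow_of_pow_eq_one hη
    rw [← hi]
    exact pow_mem hζK i
  have hτK : τ ∈ K := by
    have h1 : (τ / r) ^ N = 1 := by
      rw [hN, mul_assoc, pow_mul, div_pow, hτ, hr, mul_div_assoc, div_self (by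
        exact_mod_cast hq.ne'), mul_one, pow_mul, hω.pow_eq_one, one_pow]
    have h2 : τ = (τ / r) * r := by rw [div_mul_cancel₀ _ hr0]
    rw [h2]
    exact mul_mem (hroot _ h1) hrK
  -- the field of `τ`
  set L := IntermediateField.adjoin ℚ ({τ} : Set ℂ) with hL
  have hτL : τ ∈ L := IntermediateField.mem_adjoin_simple_self ℚ τ
  have hLK : L ≤ K := by
    rw [hL, IntermediateField.adjoin_le_iff, Set.singleton_subset_iff]
    exact hτK
  let τ' : L := ⟨τ, hτL⟩
  have hP0 : aeval t (X ^ f - C τ' : L[X]) = 0 := by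
    rw [map_sub, map_pow, aeval_X, aeval_C]
    exact sub_self _
  have hPm : (X ^ f - C τ' : L[X]).Monic := monic_X_pow_sub_C _ hf0.ne'
  have hint : IsIntegral L t := ⟨_, hPm, hP0⟩
  set P := minpoly L t with hPdef
  have hPmon : P.Monic := minpoly.monic hint
  have hdle : P.natDegree ≤ f := by
    have h1 : P ∣ X ^ f - C τ' := minpoly.dvd _ _ hP0
    have h2 := natDegree_le_of_dvd h1 hPm.ne_zero
    rwa [natDegree_X_pow_sub_C] at h2
  have hdpos : 0 < P.natDegree := minpoly.natDegree_pos hint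
  have hx : t ^ P.natDegree ∈ K := by
    set Q := P.map (algebraMap L ℂ) with hQ
    have hQs : Q.Splits := IsAlgClosed.splits Q
    have hQm : Q.Monic := hPmon.map _
    have hQd : Q.natDegree = P.natDegree := natDegree_map _
    have hc := hQs.coeff_zero_eq_prod_roots_of_monic hQm
    have hcard : Multiset.card Q.roots = P.natDegree := by
      rw [← hQd]
      exact hQs.natDegree_eq_card_roots.symm
    have h1 : Q.roots.prod ∈ K := by
      have h2 : Q.coeff 0 ∈ K := by
        rw [hQ, coeff_map]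
        exact hLK (P.coeff 0).2
      have h3 : Q.roots.prod = (-1) ^ Q.natDegree * Q.coeff 0 := by
        rw [hc, ← mul_assoc, ← mul_pow]
        norm_num
      rw [h3]
      exact mul_mem (pow_mem (neg_mem (one_mem K)) _) h2
    have h4 : (Q.roots.map fun z => z / t).prod ∈ K := by
      refine multiset_prod_mem _ fun η hη => ?_
      obtain ⟨z, hz, rfl⟩ := Multiset.mem_map.1 hη
      apply hroot
      have h5 : z ^ f = τ := by
        have h6 : Q.IsRoot z := isRoot_of_mem_roots hz
        have h7 : Q ∣ (X ^ f - C τ' : L[X]).map (algebraMap L ℂ) :=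
          Polynomial.map_dvd _ (minpoly.dvd _ _ hP0)
        have h8 := h6.dvd h7
        rw [IsRoot.def, Polynomial.map_sub, Polynomial.map_pow, map_X, map_C, eval_sub, eval_pow,
          eval_X, eval_C, sub_eq_zero] at h8
        exact h8
      rw [hN, mul_comm (2 * n) f, pow_mul, div_pow, h5, hτdef, div_self (pow_ne_zero _ ht0),
        one_pow]
    have h5 : (Q.roots.map fun z => z / t).prod * t ^ P.natDegree = Q.roots.prod := by
      rw [Multiset.prod_map_div, Multiset.map_id', Multiset.map_const', Multiset.prod_replicate,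
        hcard, div_mul_cancel₀ _ (pow_ne_zero _ ht0)]
    have h6 : (Q.roots.map fun z => z / t).prod ≠ 0 := by
      intro h7
      rw [h7, zero_mul] at h5
      have h8 := (Multiset.prod_eq_zero_iff.1 h5.symm)
      have h9 : (0 : ℂ) / t ∈ Q.roots.map fun z => z / t := Multiset.mem_map_of_mem _ h8
      have h10 : Q.IsRoot 0 := isRoot_of_mem_roots h8
      have h11 : Q ∣ (X ^ f - C τ' : L[X]).map (algebraMap L ℂ) :=
          Polynomial.map_dvd _ (minpoly.dvd _ _ hP0)
      have h12 := h10.dvd h11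
      rw [IsRoot.def, Polynomial.map_sub, Polynomial.map_pow, map_X, map_C, eval_sub, eval_pow,
          eval_X, eval_C, sub_eq_zero, zero_pow hf0.ne'] at h12
      exact pow_ne_zero f ht0 h12.symm
    have h7 : t ^ P.natDegree = Q.roots.prod / (Q.roots.map fun z => z / t).prod :=
      eq_div_of_mul_eq h6 (by rw [mul_comm]; exact h5)
    rw [h7]
    exact div_mem h1 h4
  have hfd : f ≤ P.natDegree := by
    refine hmin _ hdpos ?_
    refine hA N ζ r q (Nat.pos_of_ne_zero hN0) hζ hq hr _ hx (pow_ne_zero _ ht0) ?_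
    refine ⟨N₀, hN₀, q₀ ^ P.natDegree, ?_⟩
    rw [← pow_mul, mul_comm, pow_mul, hq₀]
    push_cast
    rfl
  have hdeg : P.natDegree = f := le_antisymm hdle hfd
  -- the degrees
  have h1 : Module.finrank L (IntermediateField.adjoin L {t}) = f := by
    rw [IntermediateField.adjoin.finrank hint, ← hPdef, hdeg]
  have h2' := IntermediateField.adjoin_adjoin_left ℚ ({τ} : Set ℂ) ({t} : Set ℂ)
  have h2 : IntermediateField.adjoin ℚ ({τ} ∪ {t} : Set ℂ) =
      IntermediateField.adjoin ℚ {t} := by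
    apply le_antisymm
    · rw [IntermediateField.adjoin_le_iff]
      rintro x (hx | hx)
      · rw [Set.mem_singleton_iff.1 hx, hτdef]
        exact pow_mem (IntermediateField.mem_adjoin_simple_self ℚ t) f
      · rw [Set.mem_singleton_iff.1 hx]
        exact IntermediateField.mem_adjoin_simple_self ℚ t
    · exact IntermediateField.adjoin.mono _ _ _ Set.subset_union_right
  have h3 : Module.finrank ℚ L * Module.finrank L (IntermediateField.adjoin L ({t} : Set ℂ)) =
      Module.finrank ℚ (IntermediateField.adjoin L ({t} : Set ℂ)) :=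
    Module.finrank_mul_finrank ℚ L _
  rw [dg, dg, ← h2, ← h2']
  change Module.finrank ℚ (IntermediateField.adjoin L ({t} : Set ℂ)) = f * Module.finrank ℚ L
  rw [← h3, h1, mul_comm]

end Pool.Agent.Y907.RP
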